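import Pool.Agent.Work.MP_a8fbd7_nt.EX.WX.All

/-!
MP_9ecf5f_nt (prime gaps below the square root plus one): the number of `n` with `p_n ≤ X` and `p_(n+1) - p_n ≥ lam √p_n` is
`O(X^(21/400))`.
-/

set_option autoImplicit false

namespace Pool.Agent.Results.MP_9ecf5f_nt.NumberOfLargeGaps

/-- For every real `lam > 0` there is a constant `C` such that for every natural number `X` the number of pairs of consecutive
primes `p < p'` with `p ≤ X` and `p' - p ≥ lam √p` is at most `C X^(21/400)`.  (`Nat.nth Nat.Prime n` is the prime with index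
`n`, counted from `n = 0`; the condition `n < X` follows from `Nat.nth Nat.Prime n ≤ X`.) -/
theorem result : ∀ lam : ℝ, 0 < lam → ∃ C : ℝ, ∀ X : ℕ,
    (((Finset.range X).filter (fun n => Nat.nth Nat.Prime n ≤ X ∧
        lam * Real.sqrt (Nat.nth Nat.Prime n) ≤ (Nat.nth Nat.Prime (n + 1) : ℝ) - Nat.nth Nat.Prime n)).card : ℝ) ≤
      C * (X : ℝ) ^ (21 / 400 : ℝ) := by
  intro lam hlam
  obtain ⟨C, hC⟩ := Pool.Agent.Work.MP_a8fbd7_nt.EX.WX.gap_nth Pool.Agent.Work.MP_a8fbd7_nt.EX.WX.all_Ga lam hlam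
  exact ⟨C, fun X => (hC X _ fun n hn => hn).1⟩

end Pool.Agent.Results.MP_9ecf5f_nt.NumberOfLargeGaps
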